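import Pool.Agent.Helper40.AV.St

/-! AV7: integers whose smallest prime factor is in the middle range. -/

set_option autoImplicit false
open Filter Topology

namespace Pool.Agent.Helper73.AV

open Pool.Agent.Helper40.AV Pool.Agent.Helper44

lemma mem_PI {a b : ℝ} (hb : 0 ≤ b) {p : ℕ} (h : p ∈ PI a b) : p.Prime ∧ a < p ∧ (p : ℝ) ≤ b := by
  unfold PI at h
  rw [Finset.mem_filter, mem_primesUpTo hb] at h
  exact ⟨h.1.1, h.2, h.1.2⟩

lemma cu_ge_one {u : ℝ} (h1 : 1 ≤ u) (h2 : u ≤ 2) : 1 ≤ cu u := by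
  unfold cu
  have := Real.log_le_sub_one_of_pos (show 0 < u by linarith)
  nlinarith

lemma cu_le_three {u : ℝ} (h1 : 1 ≤ u) (h2 : u ≤ 2) : cu u ≤ 3 := by
  unfold cu
  have := Real.log_nonneg h1
  nlinarith

lemma cu_continuous : Continuous cu := by
  have : cu = fun u : ℝ => 2 * u - 1 - u * Real.log u := rfl
  rw [this]
  exact ((continuous_const.mul continuous_id).sub continuous_const).sub Real.continuous_mul_log

/-- `u = log Y / log p` -/
noncomputable def uu (a : ℝ) : ℝ := min ((0.4995 - a) / (2 * a)) 2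

lemma uu_mem {a : ℝ} (h1 : 1 / 16 ≤ a) (h2 : a ≤ 1 / 8) : 1 ≤ uu a ∧ uu a ≤ 2 := by
  refine ⟨?_, min_le_right _ _⟩
  unfold uu
  refine le_min ?_ (by norm_num)
  rw [le_div_iff₀ (by linarith)]
  norm_num
  linarith

noncomputable def ff (a : ℝ) : ℝ := 1 / (a * cu (uu a))

lemma ff_pos {a : ℝ} (h1 : 1 / 16 ≤ a) (h2 : a ≤ 1 / 8) : 0 < a * cu (uu a) := by
  obtain ⟨h3, h4⟩ := uu_mem h1 h2
  have := cu_ge_one h3 h4
  exact mul_pos (by linarith) (by linarith)

lemma ff_ge {a : ℝ} (h1 : 1 / 16 ≤ a) (h2 : a ≤ 1 / 8) : 1 ≤ ff a := by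
  obtain ⟨h3, h4⟩ := uu_mem h1 h2
  have h5 := cu_ge_one h3 h4
  have h6 := cu_le_three h3 h4
  unfold ff
  rw [le_div_iff₀ (ff_pos h1 h2)]
  nlinarith

lemma ff_le {a : ℝ} (h1 : 1 / 16 ≤ a) (h2 : a ≤ 1 / 8) : ff a ≤ 16 := by
  obtain ⟨h3, h4⟩ := uu_mem h1 h2
  have h5 := cu_ge_one h3 h4
  unfold ff
  rw [div_le_iff₀ (ff_pos h1 h2)]
  nlinarith

lemma ff_continuousOn : ContinuousOn ff (Set.Icc (1 / 16) (1 / 8)) := by
  unfold ff
  refine ContinuousOn.div continuousOn_const ?_ fun a ha => (ff_pos ha.1 ha.2).ne'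
  refine ContinuousOn.mul continuousOn_id ?_
  refine cu_continuous.comp_continuousOn ?_
  unfold uu
  refine ContinuousOn.inf ?_ continuousOn_const
  refine ContinuousOn.div (by fun_prop) (by fun_prop) fun a ha => ?_
  have := ha.1
  have h3 : 0 < 2 * a := by linarith
  exact h3.ne'

lemma ff_integral : ∫ a in (1 / 16 : ℝ)..(1 / 8), ff a / a =
    (∫ a in (1 / 16 : ℝ)..(0.0999 : ℝ), 1 / (cu 2 * a ^ 2)) +
      (∫ a in (0.0999 : ℝ)..(1 / 8 : ℝ), 1 / (cu ((0.4995 - a) / (2 * a)) * a ^ 2)) := by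
  have hc : ContinuousOn (fun a => ff a / a) (Set.Icc (1 / 16) (1 / 8)) := by
    refine ff_continuousOn.div continuousOn_id fun a ha => ?_
    have := ha.1
    have h3 : 0 < a := by linarith
    exact h3.ne'
  have hi1 : IntervalIntegrable (fun a => ff a / a) MeasureTheory.volume (1 / 16 : ℝ) 0.0999 := by
    refine ContinuousOn.intervalIntegrable (hc.mono ?_)
    rw [Set.uIcc_of_le (by norm_num)]
    exact Set.Icc_subset_Icc le_rfl (by norm_num)
  have hi2 : IntervalIntegrable (fun a => ff a / a) MeasureTheory.volume (0.0999 : ℝ) (1 / 8) := by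
    refine ContinuousOn.intervalIntegrable (hc.mono ?_)
    rw [Set.uIcc_of_le (by norm_num)]
    exact Set.Icc_subset_Icc (by norm_num) le_rfl
  rw [← intervalIntegral.integral_add_adjacent_intervals hi1 hi2]
  congr 1
  · refine intervalIntegral.integral_congr fun a ha => ?_
    rw [Set.uIcc_of_le (by norm_num)] at ha
    have ha0 : 0 < a := by linarith [ha.1]
    have hu : uu a = 2 := by
      unfold uu
      refine min_eq_right ?_
      rw [le_div_iff₀ (by linarith)]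
      have := ha.2
      norm_num at this ⊢
      linarith
    unfold ff
    rw [hu, div_div]
    congr 1
    ring
  · refine intervalIntegral.integral_congr fun a ha => ?_
    rw [Set.uIcc_of_le (by norm_num)] at ha
    have h1 : (0.0999 : ℝ) ≤ a := ha.1
    have ha0 : 0 < a := by
      norm_num at h1
      linarith
    have hu : uu a = (0.4995 - a) / (2 * a) := by
      unfold uu
      refine min_eq_left ?_
      rw [div_le_iff₀ (by linarith)]
      norm_num at h1 ⊢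
      linarith
    unfold ff
    rw [hu, div_div]
    congr 1
    ring

open Classical in
lemma GG_mono {z Y Y' : ℝ} (h : Y ≤ Y') : GG z Y ≤ GG z Y' := by
  unfold GG
  refine Finset.sum_le_sum_of_subset_of_nonneg ?_ fun m _ _ => by positivity
  intro m hm
  rw [Finset.mem_filter, Finset.mem_Icc] at hm ⊢
  exact ⟨⟨hm.1.1, hm.1.2.trans (Nat.floor_le_floor h)⟩, hm.2⟩

open Classical in
/-- the bound for one prime -/
lemma one_prime (hS : SelbergP) {C : ℝ} (hC : 0 ≤ C) (hG : ∀ z u : ℝ, 2 ≤ z → 1 ≤ u → u ≤ 2 →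
    (2 * u - 1 - u * Real.log u) * Real.log z - C ≤ GG z (z ^ u)) {X : ℝ} (hX : 1 < X)
    (hL : 16 * (C + 3) < Real.log X) (hX3 : 3 ≤ X ^ (1 / 16 : ℝ))
    (y l : ℕ) (hl : X ^ (0.4998 : ℝ) ≤ l) {p : ℕ} (hp : p ∈ PI (X ^ (1 / 16 : ℝ)) (X ^ (1 / 8 : ℝ))) :
    ((((Finset.Ico y (y + l)).filter fun n => p ∣ n ∧
        ∀ r : ℕ, r.Prime → r ∣ n → (p : ℝ) - 1 / 2 < r).card : ℕ) : ℝ) ≤
    (l / Real.log X) * ((1 / p * ff (Real.log p / Real.log X)) *
      ((1 / (1 - 16 * (C + 3) / Real.log X)) * (1 + X ^ (1 / 8 - 0.4998 : ℝ)) +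
        Real.log X * X ^ (-0.0003 : ℝ))) := by
  have hX0 : 0 < X := by linarith
  have hL0 : 0 < Real.log X := Real.log_pos hX
  obtain ⟨hpp, hp1, hp2⟩ := mem_PI (by positivity) hp
  have hp0 : (0 : ℝ) < p := by exact_mod_cast hpp.pos
  have hp3 : (3 : ℝ) ≤ p := hX3.trans hp1.le
  set L := Real.log X with hLdef
  set a := Real.log p / L with ha
  have haL : a * L = Real.log p := by rw [ha]; field_simp
  have ha1 : 1 / 16 ≤ a := by
    rw [ha, le_div_iff₀ hL0, hLdef, ← Real.log_rpow hX0]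
    exact Real.log_le_log (by positivity) hp1.le
  have ha2 : a ≤ 1 / 8 := by
    rw [ha, div_le_iff₀ hL0, hLdef, ← Real.log_rpow hX0]
    exact Real.log_le_log hp0 hp2
  obtain ⟨hu1, hu2⟩ := uu_mem ha1 ha2
  have hcu := cu_ge_one hu1 hu2
  have hcu3 := cu_le_three hu1 hu2
  have hXa : X ^ a = p := by
    rw [Real.rpow_def_of_pos hX0, ← hLdef, mul_comm, haL, Real.exp_log hp0]
  set Y : ℝ := X ^ ((0.4995 - a) / 2) with hY
  have hY1 : 1 ≤ Y := by
    refine Real.one_le_rpow hX.le ?_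
    norm_num
    linarith
  have hY2 : Y ^ 2 = X ^ (0.4995 : ℝ) / p := by
    rw [hY, ← Real.rpow_natCast, ← Real.rpow_mul hX0.le, ← hXa, ← Real.rpow_sub hX0]
    congr 1
    push_cast
    ring
  have h1 := hS y l p ((p : ℝ) - 1 / 2) Y hpp.one_lt.le hY1
  refine h1.trans ?_
  -- lower bound for the Selberg sum
  have hz2 : (2 : ℝ) ≤ (p : ℝ) - 1 / 2 := by linarith
  have hG1 : cu (uu a) * (a * L) - (C + 3) ≤ GG ((p : ℝ) - 1 / 2) Y := by
    have h2 := hG ((p : ℝ) - 1 / 2) (uu a) hz2 hu1 hu2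
    have h3 : ((p : ℝ) - 1 / 2) ^ (uu a) ≤ Y := by
      calc ((p : ℝ) - 1 / 2) ^ (uu a) ≤ (p : ℝ) ^ (uu a) :=
            Real.rpow_le_rpow (by linarith) (by linarith) (by linarith)
        _ ≤ (p : ℝ) ^ ((0.4995 - a) / (2 * a)) :=
            Real.rpow_le_rpow_of_exponent_le (by linarith) (min_le_left _ _)
        _ = Y := by
            rw [hY, ← hXa, ← Real.rpow_mul hX0.le]
            congr 1
            have : a ≠ 0 := by
              have : 0 < a := by linarith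
              exact this.ne'
            field_simp
    have h4 := h2.trans (GG_mono (z := (p : ℝ) - 1 / 2) h3)
    have h5 : Real.log p - 1 ≤ Real.log ((p : ℝ) - 1 / 2) := by
      have h6 : Real.log ((p : ℝ) / 2) ≤ Real.log ((p : ℝ) - 1 / 2) :=
        Real.log_le_log (by positivity) (by linarith)
      rw [Real.log_div hp0.ne' (by norm_num)] at h6
      have := Real.log_two_lt_d9
      linarith
    have h6 : cu (uu a) * (Real.log p - 1) - C ≤ GG ((p : ℝ) - 1 / 2) Y := by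
      refine le_trans ?_ h4
      unfold cu
      unfold cu at hcu
      have := mul_le_mul_of_nonneg_left h5 (by linarith :
        0 ≤ 2 * uu a - 1 - uu a * Real.log (uu a))
      linarith
    rw [haL]
    nlinarith
  set c := cu (uu a) with hc
  have hff : ff a = 1 / (a * c) := rfl
  have hac : 0 < a * c := ff_pos ha1 ha2
  have hff1 := ff_ge ha1 ha2
  have hff2 := ff_le ha1 ha2
  have hac16 : 1 / 16 ≤ a * c := by nlinarith
  have hfrac : 16 * (C + 3) / L < 1 := by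
    rw [div_lt_one hL0]
    exact hL
  have hden : 0 < 1 - 16 * (C + 3) / L := by linarith
  have hGpos : 0 < c * (a * L) - (C + 3) := by
    have : (1 / 16) * L ≤ a * c * L := mul_le_mul_of_nonneg_right hac16 hL0.le
    nlinarith
  -- first part
  have hA : ((l : ℝ) / p + 1) ≤ (l / p) * (1 + X ^ (1 / 8 - 0.4998 : ℝ)) := by
    have h2 : 1 ≤ ((l : ℝ) / p) * X ^ (1 / 8 - 0.4998 : ℝ) := by
      rw [Real.rpow_sub hX0]
      have h3 : 0 < X ^ (0.4998 : ℝ) := by positivity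
      rw [div_mul_div_comm, le_div_iff₀ (by positivity), one_mul, mul_comm]
      exact mul_le_mul hl hp2 hp0.le (by positivity)
    rw [mul_add, mul_one]
    linarith
  have hB : 1 / GG ((p : ℝ) - 1 / 2) Y ≤ (ff a / L) * (1 / (1 - 16 * (C + 3) / L)) := by
    have h2 : 1 / GG ((p : ℝ) - 1 / 2) Y ≤ 1 / (c * (a * L) - (C + 3)) :=
      one_div_le_one_div_of_le hGpos hG1
    refine h2.trans ?_
    rw [div_mul_div_comm, mul_one]
    rw [div_le_div_iff₀ hGpos (mul_pos hL0 hden), hff]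
    have h3 : L * (1 - 16 * (C + 3) / L) = L - 16 * (C + 3) := by
      field_simp
    rw [h3, one_mul, div_mul_eq_mul_div, one_mul, le_div_iff₀ hac]
    have h4 : (C + 3) ≤ 16 * (C + 3) * (a * c) := by nlinarith
    nlinarith
  have hGG0 : 0 < GG ((p : ℝ) - 1 / 2) Y := lt_of_lt_of_le hGpos hG1
  have hl0 : (0 : ℝ) < l := lt_of_lt_of_le (by positivity) hl
  have h7 : ((l : ℝ) / p + 1) / GG ((p : ℝ) - 1 / 2) Y ≤
      ((l / p) * (1 + X ^ (1 / 8 - 0.4998 : ℝ))) * ((ff a / L) * (1 / (1 - 16 * (C + 3) / L))) := by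
    rw [div_eq_mul_one_div ((l : ℝ) / p + 1)]
    refine mul_le_mul hA hB (by positivity) (by positivity)
  -- second part
  have h8 : Y ^ 2 ≤ (l / L) * ((1 / p * ff a) * (L * X ^ (-0.0003 : ℝ))) := by
    rw [hY2]
    have h9 : X ^ (0.4995 : ℝ) ≤ l * X ^ (-0.0003 : ℝ) := by
      calc X ^ (0.4995 : ℝ) = X ^ (0.4998 : ℝ) * X ^ (-0.0003 : ℝ) := by
            rw [← Real.rpow_add hX0]
            norm_num
        _ ≤ l * X ^ (-0.0003 : ℝ) := mul_le_mul_of_nonneg_right hl (by positivity)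
    calc X ^ (0.4995 : ℝ) / p ≤ (l * X ^ (-0.0003 : ℝ)) / p :=
          div_le_div_of_nonneg_right h9 hp0.le
      _ = (l * X ^ (-0.0003 : ℝ)) / p * 1 := (mul_one _).symm
      _ ≤ (l * X ^ (-0.0003 : ℝ)) / p * ff a := mul_le_mul_of_nonneg_left hff1 (by positivity)
      _ = _ := by
          field_simp
  calc ((l : ℝ) / p + 1) / GG ((p : ℝ) - 1 / 2) Y + Y ^ 2 ≤
      ((l / p) * (1 + X ^ (1 / 8 - 0.4998 : ℝ))) * ((ff a / L) * (1 / (1 - 16 * (C + 3) / L))) +
        (l / L) * ((1 / p * ff a) * (L * X ^ (-0.0003 : ℝ))) := add_le_add h7 h8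
    _ = _ := by ring

theorem midUp (hS : SelbergP) (hG : GGlow) (hP : PrimeInt) : MidUp := by
  classical
  intro ε hε
  obtain ⟨C0, hC0⟩ := hG
  set C : ℝ := max C0 0 with hC
  have hC' : 0 ≤ C := le_max_right _ _
  have hG' : ∀ z u : ℝ, 2 ≤ z → 1 ≤ u → u ≤ 2 →
      (2 * u - 1 - u * Real.log u) * Real.log z - C ≤ GG z (z ^ u) := fun z u h1 h2 h3 =>
    (by linarith [le_max_left C0 0, hC0 z u h1 h2 h3])
  set J : ℝ := (∫ a in (1 / 16 : ℝ)..(0.0999 : ℝ), 1 / (cu 2 * a ^ 2)) +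
      (∫ a in (0.0999 : ℝ)..(1 / 8 : ℝ), 1 / (cu ((0.4995 - a) / (2 * a)) * a ^ 2)) with hJ
  have hlim1 := hP (1 / 16) (1 / 8) ff (by norm_num) (by norm_num) ff_continuousOn
  rw [ff_integral, ← hJ] at hlim1
  -- the error factor
  have hlog : Tendsto Real.log atTop atTop := Real.tendsto_log_atTop
  have l1 : Tendsto (fun X : ℝ => 1 / (1 - 16 * (C + 3) / Real.log X)) atTop (𝓝 (1 / (1 - 0))) := by
    refine Tendsto.div tendsto_const_nhds (tendsto_const_nhds.sub ?_) (by norm_num)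
    exact tendsto_const_nhds.div_atTop hlog
  have l2 : Tendsto (fun X : ℝ => 1 + X ^ (1 / 8 - 0.4998 : ℝ)) atTop (𝓝 (1 + 0)) := by
    refine tendsto_const_nhds.add ?_
    have h1 : (1 / 8 - 0.4998 : ℝ) = -(0.3748) := by norm_num
    rw [h1]
    exact tendsto_rpow_neg_atTop (by norm_num)
  have l3 : Tendsto (fun X : ℝ => Real.log X * X ^ (-0.0003 : ℝ)) atTop (𝓝 0) := by
    have h1 := (isLittleO_log_rpow_atTop (r := 0.0003) (by norm_num)).tendsto_div_nhds_zero
    refine h1.congr' ?_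
    filter_upwards [eventually_gt_atTop 0] with X hX
    rw [div_eq_mul_inv, ← Real.rpow_neg hX.le]
  have l4 := hlim1.mul ((l1.mul l2).add l3)
  have hJ1 : J * (1 / (1 - 0) * (1 + 0) + 0) = J := by norm_num
  rw [hJ1] at l4
  have ev1 := l4.eventually_le_const (show J < J + ε by linarith)
  have ev2 := hlog.eventually_gt_atTop (16 * (C + 3))
  have ev3 := (tendsto_rpow_atTop (show (0 : ℝ) < 1 / 16 by norm_num)).eventually_ge_atTop (3 : ℝ)
  obtain ⟨X₀, hX₀⟩ := ((ev1.and (ev2.and (ev3.and (eventually_gt_atTop (1 : ℝ)))))).exists_forall_of_atTop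
  refine ⟨X₀, fun X hX y l hl1 hl2 => ?_⟩
  obtain ⟨e1, e2, e3, e4⟩ := hX₀ X hX
  have hL0 : 0 < Real.log X := Real.log_pos e4
  have hl0 : (0 : ℝ) ≤ l := by positivity
  refine (Finset.sum_le_sum fun p hp => one_prime hS hC' hG' e4 e2 e3 y l hl1 hp).trans ?_
  rw [← Finset.mul_sum, ← Finset.sum_mul]
  calc (l : ℝ) / Real.log X * _ ≤ l / Real.log X * (J + ε) :=
        mul_le_mul_of_nonneg_left e1 (by positivity)
    _ = (J + ε) * l / Real.log X := by ring

end Pool.Agent.Helper73.AV
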